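import Pool.Agent.helper12.DD.Spec2

/-!
# LAL: linear algebra
-/

set_option autoImplicit false

namespace Pool.Agent.DD

section

variable {k : Type} [Field k] {G : Type} [Group G]

theorem LAL_ker {A B : (G →₀ k) →ₗ[k] k} (hA : A (Finsupp.single 1 1) = 1)
    (hB : B (Finsupp.single 1 1) = 1) (h : LinearMap.ker B ≤ LinearMap.ker A) : A = B := by
  refine LinearMap.ext fun z => ?_
  have h1 : z - B z • Finsupp.single 1 1 ∈ LinearMap.ker B := by
    rw [LinearMap.mem_ker, map_sub, map_smul, hB, smul_eq_mul, mul_one, sub_self]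
  have h2 := h h1
  rw [LinearMap.mem_ker, map_sub, map_smul, hA, smul_eq_mul, mul_one, sub_eq_zero] at h2
  exact h2

theorem LAL_avoid [Infinite k] {Q : Type} [Finite Q] {V : Type} [AddCommGroup V] [Module k V]
    (B : V →ₗ[k] k) (A : Q → V →ₗ[k] k) (h : ∀ z, B z = 0 → ∃ t, A t z = 0) :
    ∃ t, LinearMap.ker B ≤ LinearMap.ker (A t) := by
  obtain ⟨t, ht⟩ := Subspace.exists_eq_top_of_iUnion_eq_univ
    (p := fun t => (LinearMap.ker (A t)).comap (LinearMap.ker B).subtype) (by
      refine Set.eq_univ_of_forall fun z => ?_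
      obtain ⟨t, ht⟩ := h z (LinearMap.mem_ker.1 z.2)
      refine Set.mem_iUnion.2 ⟨t, ?_⟩
      exact LinearMap.mem_ker.2 ht)
  refine ⟨t, fun z hz => ?_⟩
  have h1 : (⟨z, hz⟩ : LinearMap.ker B) ∈
      (LinearMap.ker (A t)).comap (LinearMap.ker B).subtype := by
    rw [ht]
    exact Submodule.mem_top
  exact h1

omit [Group G] in
theorem LAL_ext {Q : Type} [Group Q] [Fintype Q] (a : Q → G → k) (b : G → k)
    (h : ∀ g : Q → G, ∑ c : Q, ∏ t, a t (g (c⁻¹ * t)) = (Nat.card Q : k) * ∏ t, b (g t))
    (z : Q → (G →₀ k)) :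
    ∑ c : Q, ∏ s, Finsupp.linearCombination k (a (c * s)) (z s) =
      (Nat.card Q : k) * ∏ t, Finsupp.linearCombination k b (z t) := by
  have h1 : (∑ c : Q, (MultilinearMap.mkPiAlgebra k Q k).compLinearMap
      (fun s => Finsupp.linearCombination k (a (c * s))) :
      MultilinearMap k (fun _ : Q => G →₀ k) k) =
      (Nat.card Q : k) • (MultilinearMap.mkPiAlgebra k Q k).compLinearMap
        (fun _ => Finsupp.linearCombination k b) := by
    refine Module.Basis.ext_multilinear (fun _ : Q => Finsupp.basisSingleOne) fun v => ?_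
    have h2 : ∑ c : Q, ∏ s, a (c * s) (v s) = (Nat.card Q : k) * ∏ t, b (v t) := by
      rw [← h v]
      refine Finset.sum_congr rfl fun c _ => ?_
      refine Fintype.prod_equiv (Equiv.mulLeft c) _ _ fun s => ?_
      simp
    simpa using h2
  have h3 := congrArg (fun f => f z) h1
  simpa using h3

end

theorem LAL : LAL_stmt := by
  classical
  intro k _ _ Q _ _ hQ hQk G _ a b ha hb h
  have hext := LAL_ext a b h
  have hA1 : ∀ t, Finsupp.linearCombination k (a t) (Finsupp.single 1 1) = 1 := by
    intro t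
    rw [Finsupp.linearCombination_single, ha, one_smul]
  have hB1 : Finsupp.linearCombination k b (Finsupp.single 1 1) = 1 := by
    rw [Finsupp.linearCombination_single, hb, one_smul]
  have hab : ∀ t, LinearMap.ker (Finsupp.linearCombination k b) ≤
      LinearMap.ker (Finsupp.linearCombination k (a t)) → a t = b := by
    intro t ht
    have h1 := LAL_ker (hA1 t) hB1 ht
    funext g
    have h2 := congrArg (fun f => f (Finsupp.single g 1)) h1
    simpa using h2
  -- step 1
  obtain ⟨t₀, ht₀⟩ := LAL_avoid (Finsupp.linearCombination k b)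
    (fun t => Finsupp.linearCombination k (a t)) (by
      intro z hz
      have h1 := hext fun _ => z
      have h2 : ∀ c : Q, ∏ s, Finsupp.linearCombination k (a (c * s)) z =
          ∏ s, Finsupp.linearCombination k (a s) z := fun c =>
        Fintype.prod_equiv (Equiv.mulLeft c) _ _ fun s => rfl
      have h3 : ∏ t : Q, Finsupp.linearCombination k b z = 0 := by
        rw [hz]
        exact Finset.prod_eq_zero (Finset.mem_univ (1 : Q)) rfl
      rw [Finset.sum_congr rfl fun c _ => h2 c, h3, mul_zero, Finset.sum_const,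
        Finset.card_univ, nsmul_eq_mul, ← Nat.card_eq_fintype_card] at h1
      have h4 := (mul_eq_zero.1 h1).resolve_left hQk
      obtain ⟨t, -, ht⟩ := Finset.prod_eq_zero_iff.1 h4
      exact ⟨t, ht⟩)
  have h0 := hab t₀ ht₀
  -- step 2
  by_contra hne
  push Not at hne
  obtain ⟨s₀, hs₀⟩ := hne
  have hz : ∃ z : G →₀ k, Finsupp.linearCombination k b z = 0 ∧
      ∀ t, a t ≠ b → Finsupp.linearCombination k (a t) z ≠ 0 := by
    by_contra hcon
    push Not at hcon
    obtain ⟨⟨t, ht⟩, ht'⟩ := LAL_avoid (Q := {t : Q // a t ≠ b}) (Finsupp.linearCombination k b)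
      (fun t => Finsupp.linearCombination k (a t.1)) (by
        intro z hz
        obtain ⟨t, h1, h2⟩ := hcon z hz
        exact ⟨⟨t, h1⟩, h2⟩)
    exact ht (hab t ht')
  obtain ⟨z, hz0, hz1⟩ := hz
  have h1 := hext fun s => if a s = b then Finsupp.single 1 1 else z
  have h2 : ∏ t, Finsupp.linearCombination k b
      (if a t = b then Finsupp.single 1 1 else z) = 0 := by
    refine Finset.prod_eq_zero (Finset.mem_univ s₀) ?_
    rw [if_neg hs₀, hz0]
  rw [h2, mul_zero, Finset.sum_eq_single (1 : Q)] at h1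
  · rw [Finset.prod_eq_zero_iff] at h1
    obtain ⟨s, -, hs⟩ := h1
    rw [one_mul] at hs
    by_cases hsb : a s = b
    · rw [if_pos hsb, hA1] at hs
      exact one_ne_zero hs
    · rw [if_neg hsb] at hs
      exact hz1 s hsb hs
  · intro c _ hc
    by_contra hcon
    have h3 : ∀ s, a s ≠ b → a (c * s) ≠ b := by
      intro s hs hs'
      apply hcon
      refine Finset.prod_eq_zero (Finset.mem_univ s) ?_
      rw [if_neg hs, hs', hz0]
    have h4 : ∀ n : ℕ, a (c ^ n * s₀) ≠ b := by
      intro n
      induction n with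
      | zero => simpa using hs₀
      | succ n ih =>
        rw [pow_succ', mul_assoc]
        exact h3 _ ih
    have : Fact (Nat.card Q).Prime := ⟨hQ⟩
    have h5 : t₀ * s₀⁻¹ ∈ Submonoid.powers c := mem_powers_of_prime_card rfl hc
    obtain ⟨n, hn⟩ := h5
    apply h4 n
    have hn' : c ^ n = t₀ * s₀⁻¹ := hn
    rw [hn', inv_mul_cancel_right]
    exact h0
  · intro h3
    exact absurd (Finset.mem_univ _) h3

end Pool.Agent.DD
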